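import Pool.Agent.H23.BroadProof

open Pool.Agent.H23.Broad

theorem Pool.Agent.Results.MP_9b093e_co.Unbounded.result (C : ℕ) :
    ∃ (V : Type) (_ : Fintype V) (G : SimpleGraph V), G.Connected ∧ 2 ≤ Fintype.card V ∧
      C * upperDom G < upperB G := by
  refine ⟨W (2 * C + 1), inferInstance, G (2 * C + 1), conn (by omega), ?_, ?_⟩
  · simp only [Fintype.card_sum, Fintype.card_prod, Fintype.card_fin, Fintype.card_bool]
    omega
  · have h1 := upperB_ge (n := 2 * C + 1) (by omega)
    have h2 := Nat.mul_le_mul_left C (upperDom_le (n := 2 * C + 1))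
    nlinarith
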